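import Pool.Agent.H743.JL.StmZ
import Pool.Agent.H743.JL.TT
import Pool.Graph.R_seed8.Y948.CQ.C2A

/-! Project JZ (helper743), task HU (helper628): density one. -/

set_option autoImplicit false
set_option linter.all false

open scoped Classical

namespace Pool.Agent.H628.JZ.HU

open Finset Filter Topology
open Pool.Agent.H743.JL
open Pool.Agent.H743.X17 (Sys Rt)
open Pool.Agent.N919.BS (NS)
open Pool.Agent.Y703.CQ (c2)
open Pool.Agent.H955.JL.TT (tw_mul sqf_tw t_TT gpos)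

/-- the symbol of the part prime to `17` -/
def sym (t : ℤ) : ℤ := jacobiSym (if (17 : ℤ) ∣ t then t / 17 else t) 17

theorem p17 : Prime (17 : ℤ) := by
  have : Nat.Prime 17 := by norm_num
  exact_mod_cast Nat.prime_iff_prime_int.1 this

theorem jz {a : ℤ} (h : (17 : ℤ) ∣ a) : jacobiSym a 17 = 0 := by
  rw [jacobiSym.eq_zero_iff_not_coprime]
  intro h1
  have h2 : (17 : ℤ) ∣ (Int.gcd a (17 : ℕ) : ℤ) := Int.dvd_coe_gcd h (by norm_num)
  rw [h1] at h2
  norm_num at h2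

theorem gc {a : ℤ} (h : ¬ (17 : ℤ) ∣ a) : Int.gcd a (17 : ℕ) = 1 := by
  have h1 : IsCoprime (17 : ℤ) a := (Prime.coprime_iff_not_dvd p17).2 h
  exact Int.isCoprime_iff_gcd_eq_one.1 h1.symm

theorem jsq {a b g m : ℤ} (h : m * g ^ 2 = a * b) (ha : ¬ (17 : ℤ) ∣ a) (hb : ¬ (17 : ℤ) ∣ b) :
    jacobiSym m 17 = jacobiSym a 17 * jacobiSym b 17 := by
  have hg : ¬ (17 : ℤ) ∣ g := by
    intro h1
    have h2 : (17 : ℤ) ∣ a * b := by
      rw [← h]
      exact Dvd.dvd.mul_left (dvd_pow h1 two_ne_zero) _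
    rcases p17.dvd_or_dvd h2 with h3 | h3
    · exact ha h3
    · exact hb h3
  have h1 := jacobiSym.mul_left m (g ^ 2) 17
  rw [h, jacobiSym.mul_left, jacobiSym.pow_left, jacobiSym.sq_one (gc hg), mul_one] at h1
  exact h1.symm

theorem ndiv {t : ℤ} (ht : Squarefree t) (h : (17 : ℤ) ∣ t) : ¬ (17 : ℤ) ∣ t / 17 := by
  intro h1
  obtain ⟨k, hk⟩ := h
  rw [hk, Int.mul_ediv_cancel_left _ (by norm_num)] at h1
  obtain ⟨j, hj⟩ := h1
  have h2 := ht 17 ⟨j, by rw [hk, hj]; ring⟩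
  rw [Int.isUnit_iff] at h2
  omega

theorem sym_ne {t : ℤ} (ht : Squarefree t) : sym t = 1 ∨ sym t = -1 := by
  unfold sym
  have h0 : ¬ (17 : ℤ) ∣ (if (17 : ℤ) ∣ t then t / 17 else t) := by
    split_ifs with h
    · exact ndiv ht h
    · exact h
  rcases jacobiSym.trichotomy (if (17 : ℤ) ∣ t then t / 17 else t) 17 with h1 | h1 | h1
  · rw [jacobiSym.eq_zero_iff_not_coprime] at h1
    exact absurd (gc h0) h1
  · exact Or.inl h1
  · exact Or.inr h1

theorem jac_tw {t d : ℤ} (ht : Squarefree t) (hd : Squarefree d) :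
    jacobiSym (tw t d) 17 = if ((17 : ℤ) ∣ t ↔ (17 : ℤ) ∣ d) then sym t * sym d else 0 := by
  have hm := tw_mul t d
  have hg1 : (Int.gcd t d : ℤ) ∣ t := Int.gcd_dvd_left ..
  have hg2 : (Int.gcd t d : ℤ) ∣ d := Int.gcd_dvd_right ..
  unfold sym
  by_cases h1 : (17 : ℤ) ∣ t
  · by_cases h2 : (17 : ℤ) ∣ d
    · rw [if_pos (by tauto), if_pos h1, if_pos h2]
      have h3 := ndiv ht h1
      have h4 := ndiv hd h2
      have h5 : (17 : ℤ) ∣ (Int.gcd t d : ℤ) := Int.dvd_coe_gcd h1 h2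
      obtain ⟨g, hg⟩ := h5
      obtain ⟨t1, rfl⟩ := h1
      obtain ⟨d1, rfl⟩ := h2
      rw [Int.mul_ediv_cancel_left _ (by norm_num)] at h3 h4
      rw [Int.mul_ediv_cancel_left _ (by norm_num), Int.mul_ediv_cancel_left _ (by norm_num)]
      refine jsq (g := g) ?_ h3 h4
      rw [hg] at hm
      have : (17 * 17 : ℤ) * (tw (17 * t1) (17 * d1) * g ^ 2) = (17 * 17 : ℤ) * (t1 * d1) := by
        linear_combination hm
      exact mul_left_cancel₀ (by norm_num) this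
    · rw [if_neg (by tauto)]
      apply jz
      have h3 : (17 : ℤ) ∣ tw t d * (Int.gcd t d : ℤ) ^ 2 := by
        rw [hm]
        exact Dvd.dvd.mul_right h1 _
      rcases p17.dvd_or_dvd h3 with h4 | h4
      · exact h4
      · exact absurd ((p17.dvd_of_dvd_pow h4).trans hg2) h2
  · by_cases h2 : (17 : ℤ) ∣ d
    · rw [if_neg (by tauto)]
      apply jz
      have h3 : (17 : ℤ) ∣ tw t d * (Int.gcd t d : ℤ) ^ 2 := by
        rw [hm]
        exact Dvd.dvd.mul_left h2 _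
      rcases p17.dvd_or_dvd h3 with h4 | h4
      · exact h4
      · exact absurd ((p17.dvd_of_dvd_pow h4).trans hg1) h1
    · rw [if_pos (by tauto), if_neg h1, if_neg h2]
      exact jsq hm h1 h2

theorem pos_tw {t d : ℤ} (ht : Squarefree t) : (0 < tw t d ↔ 0 < t * d) ∧ (tw t d < 0 ↔ t * d < 0) := by
  have hm := tw_mul t d
  have hg : 0 < (Int.gcd t d : ℤ) ^ 2 := by
    have := gpos d ht.ne_zero
    positivity
  rw [← hm]
  constructor
  · exact (mul_pos_iff_of_pos_right hg).symm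
  · constructor
    · intro h
      exact mul_neg_of_neg_of_pos h hg
    · intro h
      by_contra hc
      push Not at hc
      exact absurd (mul_nonneg hc hg.le) (not_le.2 h)

/-- the class of `t` modulo the squares of `ℝ` and `ℚ_17` -/
def cl (t : ℤ) : Bool × Bool × Bool := (decide (0 < t), decide ((17 : ℤ) ∣ t), decide (sym t = 1))

theorem cl_inv {t t' : ℤ} (ht : Squarefree t) (ht' : Squarefree t') (h : cl t = cl t') {d : ℤ}
    (hd : Squarefree d) : Rt (tw t d) ↔ Rt (tw t' d) := by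
  unfold cl at h
  rw [Prod.mk.injEq, Prod.mk.injEq, decide_eq_decide, decide_eq_decide, decide_eq_decide] at h
  obtain ⟨h1, h2, h3⟩ := h
  have h4 : sym t = sym t' := by
    rcases sym_ne ht with h5 | h5
    · rw [h5, h3.1 h5]
    · rcases sym_ne ht' with h6 | h6
      · have := h3.2 h6
        omega
      · rw [h5, h6]
  unfold Rt
  rw [jac_tw ht hd, jac_tw ht' hd, (pos_tw ht).1, (pos_tw ht).2, (pos_tw ht').1, (pos_tw ht').2, h4]
  simp only [h2]
  have h5 : 0 < t * d ↔ 0 < t' * d := by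
    have ht0 := ht.ne_zero
    have ht0' := ht'.ne_zero
    rw [mul_pos_iff, mul_pos_iff]
    have : t < 0 ↔ t' < 0 := by omega
    rw [h1, this]
  have h6 : t * d < 0 ↔ t' * d < 0 := by
    have ht0 := ht.ne_zero
    have ht0' := ht'.ne_zero
    rw [mul_neg_iff, mul_neg_iff]
    have : t < 0 ↔ t' < 0 := by omega
    rw [h1, this]
  rw [h5, h6]

theorem rt_one : Rt 1 := by
  left
  refine ⟨by norm_num, ?_⟩
  rw [jacobiSym.one_left]

theorem card_le (n N : ℕ) (S : Finset ℤ) (hS : S.card = n) (hn : 1 ≤ n) :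
    (S.powerset.filter (fun A => A.card < N)).card ≤ N * n ^ N := by
  have h1 : S.powerset.filter (fun A => A.card < N) ⊆ (range N).biUnion (fun k => powersetCard k S) := by
    intro A hA
    rw [mem_filter, mem_powerset] at hA
    rw [mem_biUnion]
    exact ⟨A.card, mem_range.2 hA.2, mem_powersetCard.2 ⟨hA.1, rfl⟩⟩
  refine (Finset.card_le_card h1).trans (card_biUnion_le.trans ?_)
  calc ∑ k ∈ range N, (powersetCard k S).card ≤ ∑ k ∈ range N, n ^ N := by
        apply sum_le_sum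
        intro k hk
        rw [card_powersetCard, hS]
        exact (Nat.choose_le_pow n k).trans (Nat.pow_le_pow_right hn (mem_range.1 hk).le)
    _ = N * n ^ N := by rw [sum_const, card_range, smul_eq_mul]

theorem ns_mono {P Q : ℤ → Prop} (h : ∀ d, Squarefree d → P d → Q d) (X : ℕ) : NS P X ≤ NS Q X := by
  unfold NS
  apply Finset.card_le_card
  intro d hd
  rw [mem_filter] at hd ⊢
  exact ⟨hd.1, hd.2.1, h d hd.2.1 hd.2.2⟩

theorem ns_zero {P : ℤ → Prop} (h : ∀ d, ¬ P d) (X : ℕ) : NS P X = 0 := by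
  unfold NS
  rw [Finset.card_eq_zero]
  apply filter_false_of_mem
  intro d _ hd
  exact h d hd.2

theorem ns_union {ι : Type} {P : ℤ → Prop} (S : Finset ι) (Q : ι → ℤ → Prop)
    (h : ∀ d, Squarefree d → P d → ∃ i ∈ S, Q i d) (X : ℕ) : NS P X ≤ ∑ i ∈ S, NS (Q i) X := by
  unfold NS
  have h1 : ((Icc (-(X : ℤ)) X).filter fun d => Squarefree d ∧ P d) ⊆
      S.biUnion (fun i => (Icc (-(X : ℤ)) X).filter fun d => Squarefree d ∧ Q i d) := by
    intro d hd
    rw [mem_filter] at hd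
    obtain ⟨i, hi, hq⟩ := h d hd.2.1 hd.2.2
    rw [mem_biUnion]
    exact ⟨i, hi, mem_filter.2 ⟨hd.1, hd.2.1, hq⟩⟩
  exact (Finset.card_le_card h1).trans card_biUnion_le

/-- the failing `d` -/
def Bd (U : Set ℤ) (N : ℕ) (d : ℤ) : Prop := (∀ t ∈ U, Rt (tw t d)) ∧
  ¬ ∃ F : Finset ℤ, (∀ t ∈ F, t ∈ U) ∧ F.card = N ∧ ∀ t ∈ F, Sys (tw t d)

theorem bound (h : S_FI) (hc0 : 0 < c2) (hc1 : c2 < 1) (U : Set ℤ) (hU : U.Infinite)
    (hsq : ∀ t ∈ U, Squarefree t)
    (hcl : ∀ t ∈ U, ∀ t' ∈ U, ∀ d, Squarefree d → (Rt (tw t d) ↔ Rt (tw t' d))) (N n : ℕ)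
    (hn : 1 ≤ n) (hN : N ≤ n) (ε : ℝ) (hε : 0 < ε) :
    ∀ᶠ X : ℕ in atTop, (NS (Bd U N) X : ℝ) / (NS (fun _ => True) X : ℝ) ≤
      N * (n : ℝ) ^ N * (1 - c2) ^ (n - N) + ε := by
  obtain ⟨S, hSU, hSc⟩ := hU.exists_subset_card_eq n
  have hne : S.Nonempty := by
    rw [← Finset.card_pos]
    omega
  obtain ⟨t1, ht1⟩ := hne
  have ht1U : t1 ∈ U := hSU ht1
  have hS : ∀ t ∈ S, Squarefree t := fun t ht => hsq t (hSU ht)
  obtain ⟨⟨c, X₀, hc, hlow⟩, hlim⟩ := h S False ∅ t1 hS (by simp) (hsq t1 ht1U)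
  have hRt : ∀ t ∈ S, Rt (tw t t1) := by
    intro t ht
    rw [hcl t (hSU ht) t1 ht1U t1 (hsq t1 ht1U), t_TT.2.2.1 t1 (hsq t1 ht1U)]
    exact rt_one
  have hfil : S.filter (fun t => Rt (tw t t1)) = S := filter_true_of_mem hRt
  rw [hfil] at hlim
  set Ps := S.powerset.filter (fun A => A.card < N) with hPs
  have hsum : Tendsto (fun X : ℕ => ∑ A ∈ Ps,
      (NS (fun d => Qc S False ∅ t1 d ∧ ∀ t ∈ S, (Sys (tw t d) ↔ t ∈ A)) X : ℝ) /
        (NS (Qc S False ∅ t1) X : ℝ)) atTop (𝓝 (∑ A ∈ Ps, c2 ^ A.card * (1 - c2) ^ (S \ A).card)) := by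
    apply tendsto_finsetSum
    intro A hA
    rw [hPs, mem_filter, mem_powerset] at hA
    exact hlim A hA.1
  have hlimle : ∑ A ∈ Ps, c2 ^ A.card * (1 - c2) ^ (S \ A).card ≤ N * (n : ℝ) ^ N * (1 - c2) ^ (n - N) := by
    calc ∑ A ∈ Ps, c2 ^ A.card * (1 - c2) ^ (S \ A).card ≤ ∑ A ∈ Ps, (1 - c2) ^ (n - N) := by
          apply sum_le_sum
          intro A hA
          rw [hPs, mem_filter, mem_powerset] at hA
          have h1 : c2 ^ A.card ≤ 1 := pow_le_one₀ hc0.le hc1.le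
          have h2 : (1 - c2) ^ (S \ A).card ≤ (1 - c2) ^ (n - N) := by
            apply pow_le_pow_of_le_one (by linarith) (by linarith)
            rw [card_sdiff_of_subset hA.1, hSc]
            omega
          have h3 : (0 : ℝ) ≤ (1 - c2) ^ (S \ A).card := pow_nonneg (by linarith) _
          calc c2 ^ A.card * (1 - c2) ^ (S \ A).card ≤ 1 * (1 - c2) ^ (n - N) := by gcongr
            _ = (1 - c2) ^ (n - N) := one_mul _
      _ = Ps.card * (1 - c2) ^ (n - N) := by rw [sum_const, nsmul_eq_mul]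
      _ ≤ N * (n : ℝ) ^ N * (1 - c2) ^ (n - N) := by
          have h4 : (Ps.card : ℝ) ≤ N * (n : ℝ) ^ N := by exact_mod_cast card_le n N S hSc hn
          have h5 : (0 : ℝ) ≤ (1 - c2) ^ (n - N) := pow_nonneg (by linarith) _
          gcongr
  have hev := hsum.eventually (ge_mem_nhds (lt_of_le_of_lt hlimle (lt_add_of_pos_right _ hε)))
  filter_upwards [hev, eventually_ge_atTop (max X₀ 1)] with X hX hX1
  refine le_trans ?_ hX
  have hX0 : X₀ ≤ X := (le_max_left _ _).trans hX1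
  have hX2 : 1 ≤ X := (le_max_right _ _).trans hX1
  have hQpos : (0 : ℝ) < NS (Qc S False ∅ t1) X := by
    refine lt_of_lt_of_le ?_ (hlow X hX0)
    have : (0 : ℝ) < X := by exact_mod_cast hX2
    positivity
  rw [← sum_div]
  have hle : (NS (Bd U N) X : ℝ) ≤
      ∑ A ∈ Ps, (NS (fun d => Qc S False ∅ t1 d ∧ ∀ t ∈ S, (Sys (tw t d) ↔ t ∈ A)) X : ℝ) := by
    have := ns_union (P := Bd U N) Ps
      (fun A d => Qc S False ∅ t1 d ∧ ∀ t ∈ S, (Sys (tw t d) ↔ t ∈ A)) (fun d hd hB => by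
        refine ⟨S.filter (fun t => Sys (tw t d)), ?_, ⟨?_, ?_⟩, ?_⟩
        · rw [hPs, mem_filter, mem_powerset]
          refine ⟨filter_subset _ _, ?_⟩
          by_contra hcon
          push Not at hcon
          obtain ⟨F, hF, hFc⟩ := exists_subset_card_eq hcon
          exact hB.2 ⟨F, fun t ht => hSU (mem_filter.1 (hF ht)).1, hFc, fun t ht => (mem_filter.1 (hF ht)).2⟩
        · intro t ht
          exact ⟨fun _ => hRt t ht, fun _ => hB.1 t (hSU ht)⟩
        · exact ⟨fun hf => hf.elim, fun p _ hp => absurd hp (notMem_empty p)⟩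
        · intro t ht
          rw [mem_filter]
          exact ⟨fun h1 => ⟨ht, h1⟩, fun h1 => h1.2⟩) X
    exact_mod_cast this
  have hle2 : (NS (Qc S False ∅ t1) X : ℝ) ≤ NS (fun _ => True) X := by
    exact_mod_cast ns_mono (fun d _ _ => trivial) X
  calc (NS (Bd U N) X : ℝ) / (NS (fun _ => True) X : ℝ) ≤ (NS (Bd U N) X : ℝ) / (NS (Qc S False ∅ t1) X : ℝ) := by
        gcongr
    _ ≤ _ := by gcongr

theorem step (h : S_FI) (hc0 : 0 < c2) (hc1 : c2 < 1) (U : Set ℤ) (hU : U.Infinite)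
    (hsq : ∀ t ∈ U, Squarefree t)
    (hcl : ∀ t ∈ U, ∀ t' ∈ U, ∀ d, Squarefree d → (Rt (tw t d) ↔ Rt (tw t' d))) (N : ℕ) :
    Tendsto (fun X : ℕ => (NS (Bd U N) X : ℝ) / (NS (fun _ => True) X : ℝ)) atTop (𝓝 0) := by
  rw [tendsto_order]
  constructor
  · intro a ha
    filter_upwards with X
    refine lt_of_lt_of_le ha ?_
    positivity
  · intro ε hε
    have h1 : Tendsto (fun n : ℕ => (N : ℝ) / (1 - c2) ^ N * ((n : ℝ) ^ N * (1 - c2) ^ n)) atTop (𝓝 0) := by
      have := (tendsto_pow_const_mul_const_pow_of_abs_lt_one N (r := 1 - c2) (by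
        rw [abs_of_pos (by linarith)]
        linarith)).const_mul ((N : ℝ) / (1 - c2) ^ N)
      rwa [mul_zero] at this
    have h2 := (h1.eventually (gt_mem_nhds (show (0 : ℝ) < ε / 2 by positivity))).and
      (eventually_ge_atTop (max N 1))
    obtain ⟨n, h3, h4⟩ := h2.exists
    have hN : N ≤ n := (le_max_left _ _).trans h4
    have hn : 1 ≤ n := (le_max_right _ _).trans h4
    have h5 : (N : ℝ) * (n : ℝ) ^ N * (1 - c2) ^ (n - N) < ε / 2 := by
      refine lt_of_eq_of_lt ?_ h3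
      have h6 : (1 - c2) ^ n = (1 - c2) ^ (n - N) * (1 - c2) ^ N := by
        rw [← pow_add]
        congr 1
        omega
      have h7 : (1 - c2) ^ N ≠ 0 := pow_ne_zero _ (by linarith)
      rw [h6]
      field_simp
    filter_upwards [bound h hc0 hc1 U hU hsq hcl N n hn hN (ε / 4) (by positivity)] with X hX
    linarith

theorem hu (h : S_FI) (hc0 : 0 < c2) (hc1 : c2 < 1) : S_HU := by
  intro T N hT
  set V : Bool × Bool × Bool → Set ℤ := fun κ => {t | t ∈ T ∧ cl t = κ} with hV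
  have h1 : ∀ κ, Tendsto (fun X : ℕ => (NS (fun d => (V κ).Infinite ∧ Bd (V κ) N d) X : ℝ) /
      (NS (fun _ => True) X : ℝ)) atTop (𝓝 0) := by
    intro κ
    by_cases hinf : (V κ).Infinite
    · have h2 := step h hc0 hc1 (V κ) hinf (fun t ht => hT t ht.1)
        (fun t ht t' ht' d hd => cl_inv (hT t ht.1) (hT t' ht'.1) (ht.2.trans ht'.2.symm) hd) N
      have e : (fun d => (V κ).Infinite ∧ Bd (V κ) N d) = Bd (V κ) N := by
        funext d
        exact propext ⟨fun h => h.2, fun h => ⟨hinf, h⟩⟩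
      rw [e]
      exact h2
    · have e : ∀ X, NS (fun d => (V κ).Infinite ∧ Bd (V κ) N d) X = 0 :=
        fun X => ns_zero (fun d hd => hinf hd.1) X
      simp only [e]
      simp
  have h2 : Tendsto (fun X : ℕ => ∑ κ : Bool × Bool × Bool,
      (NS (fun d => (V κ).Infinite ∧ Bd (V κ) N d) X : ℝ) / (NS (fun _ => True) X : ℝ)) atTop (𝓝 0) := by
    have := tendsto_finsetSum (univ : Finset (Bool × Bool × Bool)) (fun κ _ => h1 κ)
    rwa [sum_const_zero] at this
  refine squeeze_zero (fun X => by positivity) (fun X => ?_) h2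
  rw [← sum_div]
  have h3 : (NS (fun d => {t | t ∈ T ∧ Rt (tw t d)}.Infinite ∧
      ¬ ∃ F : Finset ℤ, (∀ t ∈ F, t ∈ T) ∧ F.card = N ∧ ∀ t ∈ F, Sys (tw t d)) X : ℝ) ≤
      ∑ κ : Bool × Bool × Bool, (NS (fun d => (V κ).Infinite ∧ Bd (V κ) N d) X : ℝ) := by
    have := ns_union (P := fun d => {t | t ∈ T ∧ Rt (tw t d)}.Infinite ∧
      ¬ ∃ F : Finset ℤ, (∀ t ∈ F, t ∈ T) ∧ F.card = N ∧ ∀ t ∈ F, Sys (tw t d))
      (univ : Finset (Bool × Bool × Bool)) (fun κ d => (V κ).Infinite ∧ Bd (V κ) N d) (fun d hd hB => by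
        obtain ⟨hB1, hB2⟩ := hB
        have h4 : ∃ κ, {t | (t ∈ T ∧ Rt (tw t d)) ∧ cl t = κ}.Infinite := by
          by_contra hcon
          push Not at hcon
          apply hB1
          have h5 : {t | t ∈ T ∧ Rt (tw t d)} = ⋃ κ, {t | (t ∈ T ∧ Rt (tw t d)) ∧ cl t = κ} := by
            ext t
            simp
          rw [h5]
          apply Set.finite_iUnion
          intro κ
          exact hcon κ
        obtain ⟨κ, hκ⟩ := h4
        obtain ⟨t0, ht0⟩ := hκ.nonempty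
        refine ⟨κ, mem_univ _, hκ.mono (fun t ht => ⟨ht.1.1, ht.2⟩), fun t ht => ?_, ?_⟩
        · rw [cl_inv (hT t ht.1) (hT t0 ht0.1.1) (ht.2.trans ht0.2.symm) hd]
          exact ht0.1.2
        · rintro ⟨F, hF1, hF2, hF3⟩
          exact hB2 ⟨F, fun t ht => (hF1 t ht).1, hF2, hF3⟩) X
    exact_mod_cast this
  gcongr

theorem t_HU (h : S_FI) : S_HU := by
  have h1 : 0.4194 < c2 ∧ c2 < 0.4195 := (Pool.Agent.Y948.CQ.c2_main c2 rfl).2.2.2
  exact hu h (by linarith [h1.1]) (by linarith [h1.2])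

end Pool.Agent.H628.JZ.HU
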