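import Pool.Agent.H743.JL.StmZ

/-! Project JZ (helper743), task IN (helper628): from the complete to the incomplete L-function. -/

set_option autoImplicit false
set_option linter.all false

open scoped Classical

namespace Pool.Agent.H628.JZ.IN

open Pool.Agent.H743.JL
open Pool.Agent.H743.X17.RK (IsI pc inc)
open Pool.Agent.Y700 (IsL)
open Pool.Agent.W97.MT (affCount)

theorem cnt {F : Type} [Field F] (h2 : (2 : F) ≠ 0) (h3 : (3 : F) ≠ 0) (W : WeierstrassCurve F)
    {u a b : F} (hu : u ≠ 0) (ha : a = -27 * W.c₄ * u ^ 4) (hb : b = -54 * W.c₆ * u ^ 6) :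
    Nat.card {P : F × F // W.toAffine.Equation P.1 P.2} =
      Nat.card {q : F × F // q.2 ^ 2 = q.1 ^ 3 + a * q.1 + b} := by
  have h36 : (36 : F) ≠ 0 := by
    have : (36 : F) = 2 * 2 * (3 * 3) := by norm_num
    rw [this]
    exact mul_ne_zero (mul_ne_zero h2 h2) (mul_ne_zero h3 h3)
  have h108 : (108 : F) ≠ 0 := by
    have : (108 : F) = 36 * 3 := by norm_num
    rw [this]
    exact mul_ne_zero h36 h3
  let e : F × F ≃ F × F :=
    { toFun := fun P => (u ^ 2 * (36 * P.1 + 3 * W.b₂), u ^ 3 * (108 * (2 * P.2 + W.a₁ * P.1 + W.a₃)))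
      invFun := fun Q => ((Q.1 / u ^ 2 - 3 * W.b₂) / 36,
        (Q.2 / u ^ 3 / 108 - W.a₁ * ((Q.1 / u ^ 2 - 3 * W.b₂) / 36) - W.a₃) / 2)
      left_inv := by
        rintro ⟨x, y⟩
        have e1 : (u ^ 2 * (36 * x + 3 * W.b₂) / u ^ 2 - 3 * W.b₂) / 36 = x := by
          rw [mul_div_cancel_left₀ _ (pow_ne_zero 2 hu), add_sub_cancel_right,
            mul_div_cancel_left₀ _ h36]
        have e2 : u ^ 3 * (108 * (2 * y + W.a₁ * x + W.a₃)) / u ^ 3 / 108 = 2 * y + W.a₁ * x + W.a₃ := by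
          rw [mul_div_cancel_left₀ _ (pow_ne_zero 3 hu), mul_div_cancel_left₀ _ h108]
        show ((u ^ 2 * (36 * x + 3 * W.b₂) / u ^ 2 - 3 * W.b₂) / 36,
          (u ^ 3 * (108 * (2 * y + W.a₁ * x + W.a₃)) / u ^ 3 / 108 -
            W.a₁ * ((u ^ 2 * (36 * x + 3 * W.b₂) / u ^ 2 - 3 * W.b₂) / 36) - W.a₃) / 2) = (x, y)
        rw [e1, e2]
        have e3 : (2 * y + W.a₁ * x + W.a₃ - W.a₁ * x - W.a₃) / 2 = y := by
          rw [show 2 * y + W.a₁ * x + W.a₃ - W.a₁ * x - W.a₃ = 2 * y by ring,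
            mul_div_cancel_left₀ _ h2]
        rw [e3]
      right_inv := by
        rintro ⟨x, y⟩
        have e1 : u ^ 2 * (36 * ((x / u ^ 2 - 3 * W.b₂) / 36) + 3 * W.b₂) = x := by
          rw [mul_div_cancel₀ _ h36, sub_add_cancel, mul_div_cancel₀ _ (pow_ne_zero 2 hu)]
        have e2 : u ^ 3 * (108 * (2 * ((y / u ^ 3 / 108 - W.a₁ * ((x / u ^ 2 - 3 * W.b₂) / 36) - W.a₃) / 2) +
            W.a₁ * ((x / u ^ 2 - 3 * W.b₂) / 36) + W.a₃)) = y := by
          rw [mul_div_cancel₀ _ h2]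
          rw [show y / u ^ 3 / 108 - W.a₁ * ((x / u ^ 2 - 3 * W.b₂) / 36) - W.a₃ +
            W.a₁ * ((x / u ^ 2 - 3 * W.b₂) / 36) + W.a₃ = y / u ^ 3 / 108 by ring]
          rw [mul_div_cancel₀ _ h108, mul_div_cancel₀ _ (pow_ne_zero 3 hu)]
        exact Prod.ext e1 e2 }
  refine Nat.card_congr (e.subtypeEquiv fun P => ?_)
  obtain ⟨x, y⟩ := P
  show W.toAffine.Equation x y ↔ (u ^ 3 * (108 * (2 * y + W.a₁ * x + W.a₃))) ^ 2 =
    (u ^ 2 * (36 * x + 3 * W.b₂)) ^ 3 + a * (u ^ 2 * (36 * x + 3 * W.b₂)) + b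
  rw [WeierstrassCurve.Affine.equation_iff]
  have key : (u ^ 3 * (108 * (2 * y + W.a₁ * x + W.a₃))) ^ 2 -
      ((u ^ 2 * (36 * x + 3 * W.b₂)) ^ 3 + a * (u ^ 2 * (36 * x + 3 * W.b₂)) + b) =
      (36 * 36 * 36) * u ^ 6 * (y ^ 2 + W.a₁ * x * y + W.a₃ * y - (x ^ 3 + W.a₂ * x ^ 2 + W.a₄ * x + W.a₆)) := by
    rw [ha, hb]
    unfold WeierstrassCurve.c₄ WeierstrassCurve.c₆ WeierstrassCurve.b₂ WeierstrassCurve.b₄
      WeierstrassCurve.b₆
    ring
  have h64 : (36 * 36 * 36 * u ^ 6 : F) ≠ 0 :=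
    mul_ne_zero (mul_ne_zero (mul_ne_zero h36 h36) h36) (pow_ne_zero _ hu)
  constructor
  · intro h
    rw [h, sub_self, mul_zero] at key
    exact sub_eq_zero.1 key
  · intro h
    rw [h, sub_self] at key
    have h1 := (mul_eq_zero.1 key.symm).resolve_left h64
    exact sub_eq_zero.1 h1

theorem t_IN : S_IN := by
  intro W Λ a b u hL hu hD h3 h12 ha hb hc
  have key : ((16 * (-4 * a ^ 3 - 27 * b ^ 2) : ℤ) : ℚ) = (6 * u) ^ 12 * (W.Δ : ℚ) := by
    have hr : (1728 : ℚ) * W.Δ = (W.c₄ : ℚ) ^ 3 - (W.c₆ : ℚ) ^ 2 := by exact_mod_cast W.c_relation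
    push_cast
    rw [ha, hb]
    linear_combination (-(16 * 78732 * u ^ 12)) * hr
  have hDQ : (W.Δ : ℚ) ≠ 0 := by exact_mod_cast hD
  have hw0 : (6 * u : ℚ) ≠ 0 := mul_ne_zero (by norm_num) hu
  refine inc hL ?_ ?_ hc
  · intro h
    rw [h, mul_zero, Int.cast_zero] at key
    exact mul_ne_zero (pow_ne_zero 12 hw0) hDQ key.symm
  · intro p hp hpd
    haveI : Fact p.Prime := ⟨hp⟩
    have hpp : Prime (p : ℤ) := Nat.prime_iff_prime_int.1 hp
    have hp2' : ¬ (p : ℤ) ∣ 2 := fun h => hpd (Dvd.dvd.mul_right h _)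
    have hpD : ¬ (p : ℤ) ∣ 16 * (-4 * a ^ 3 - 27 * b ^ 2) := by
      intro h
      rcases hpp.dvd_or_dvd h with h | h
      · apply hp2'
        exact hpp.dvd_of_dvd_pow (n := 4) (by norm_num; exact h)
      · exact hpd (Dvd.dvd.mul_left h _)
    have hv : padicValRat p ((16 * (-4 * a ^ 3 - 27 * b ^ 2) : ℤ) : ℚ) = 0 := by
      rw [padicValRat.of_int, padicValInt.eq_zero_of_not_dvd hpD]
      rfl
    rw [key, padicValRat.mul (pow_ne_zero 12 hw0) hDQ, padicValRat.pow, padicValRat.of_int] at hv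
    by_cases hp3 : (p : ℤ) ∣ W.Δ
    · exfalso
      have hp2n : p ≠ 2 := by
        rintro rfl
        exact hp2' (dvd_refl _)
      have h4 : ¬ 12 ≤ padicValInt p W.Δ := by
        intro h5
        exact h12 p hp hp2n ((padicValInt_dvd_iff 12 W.Δ).2 (Or.inr h5))
      have h5 : padicValInt p W.Δ ≠ 0 := by
        intro h6
        have h7 := (padicValInt_dvd_iff (p := p) 1 W.Δ).1 (by rw [pow_one]; exact hp3)
        rcases h7 with h7 | h7
        · exact hD h7
        · omega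
      push_cast at hv
      omega
    refine ⟨hp3, ?_⟩
    have h5 : padicValInt p W.Δ = 0 := padicValInt.eq_zero_of_not_dvd hp3
    rw [h5] at hv
    have hv6 : padicValRat p (6 * u) = 0 := by
      push_cast at hv
      omega
    have hp3' : ¬ (p : ℤ) ∣ 3 := fun h => hp3 (h.trans h3)
    set w : ℚ := 6 * u with hw
    have hcop := w.reduced
    have hnum : ¬ (p : ℤ) ∣ w.num := by
      intro h
      have h6 : ¬ p ∣ w.den := by
        intro h7
        have h8 : p ∣ w.num.natAbs := Int.natCast_dvd.1 h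
        have h9 : p ∣ Nat.gcd w.num.natAbs w.den := Nat.dvd_gcd h8 h7
        rw [hcop] at h9
        exact hp.one_lt.ne' (Nat.dvd_one.1 h9)
      rw [padicValRat_def, padicValNat.eq_zero_of_not_dvd h6] at hv6
      have h7 := (padicValInt_dvd_iff (p := p) 1 w.num).1 (by rw [pow_one]; exact h)
      rcases h7 with h7 | h7
      · exact hw0 (Rat.zero_of_num_zero h7)
      · omega
    have hden : ¬ p ∣ w.den := by
      intro h
      rw [padicValRat_def, padicValInt.eq_zero_of_not_dvd hnum] at hv6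
      have h7 := (one_le_padicValNat_of_dvd w.den_nz h)
      omega
    have hn0 : (w.num : ZMod p) ≠ 0 := by
      intro h
      exact hnum ((ZMod.intCast_zmod_eq_zero_iff_dvd _ _).1 h)
    have hd0 : (w.den : ZMod p) ≠ 0 := by
      intro h
      exact hden ((ZMod.natCast_eq_zero_iff _ _).1 h)
    have h20 : (2 : ZMod p) ≠ 0 := by
      intro h
      apply hp2'
      exact (ZMod.intCast_zmod_eq_zero_iff_dvd 2 p).1 (by exact_mod_cast h)
    have h30 : (3 : ZMod p) ≠ 0 := by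
      intro h
      apply hp3'
      exact (ZMod.intCast_zmod_eq_zero_iff_dvd 3 p).1 (by exact_mod_cast h)
    have h60 : (6 : ZMod p) ≠ 0 := by
      have : (6 : ZMod p) = 2 * 3 := by norm_num
      rw [this]
      exact mul_ne_zero h20 h30
    have hwq : (w.num : ℚ) = w * w.den := (Rat.mul_den_eq_num w).symm
    have ea : (6 : ℤ) ^ 4 * a * (w.den : ℤ) ^ 4 = -27 * W.c₄ * w.num ^ 4 := by
      have : ((6 : ℤ) ^ 4 * a * (w.den : ℤ) ^ 4 : ℚ) = -27 * W.c₄ * w.num ^ 4 := by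
        rw [hwq, ha, hw]
        push_cast
        ring
      exact_mod_cast this
    have eb : (6 : ℤ) ^ 6 * b * (w.den : ℤ) ^ 6 = -54 * W.c₆ * w.num ^ 6 := by
      have : ((6 : ℤ) ^ 6 * b * (w.den : ℤ) ^ 6 : ℚ) = -54 * W.c₆ * w.num ^ 6 := by
        rw [hwq, hb, hw]
        push_cast
        ring
      exact_mod_cast this
    have ea' := congrArg (fun z : ℤ => (z : ZMod p)) ea
    have eb' := congrArg (fun z : ℤ => (z : ZMod p)) eb

    push_cast at ea' eb'
    unfold affCount pc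
    refine cnt h20 h30 (W.map (Int.castRingHom (ZMod p)))
      (u := (w.num : ZMod p) / ((w.den : ZMod p) * 6)) ?_ ?_ ?_
    · exact div_ne_zero hn0 (mul_ne_zero hd0 h60)
    · rw [WeierstrassCurve.map_c₄, div_pow, ← mul_div_assoc,
        eq_div_iff (pow_ne_zero 4 (mul_ne_zero hd0 h60))]
      simp only [eq_intCast]
      linear_combination ea'
    · rw [WeierstrassCurve.map_c₆, div_pow, ← mul_div_assoc,
        eq_div_iff (pow_ne_zero 6 (mul_ne_zero hd0 h60))]
      simp only [eq_intCast]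
      linear_combination eb'

end Pool.Agent.H628.JZ.IN
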