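import Pool.Agent.H743.JL.StmZ

/-! Project JZ (helper743), task RD (helper628): the criterion in terms of divisors. -/

set_option autoImplicit false
set_option linter.all false

open scoped Classical

namespace Pool.Agent.H628.JZ.RD

open Pool.Agent.H743.JL
open Pool.Agent.N969.P15 (Qc)

theorem qc_iff {n : ℕ} (hs : Squarefree n) : Qc n ↔ ∀ d : ℕ, Redei n d → d = 1 ∨ d = n := by
  have hn0 : n ≠ 0 := hs.ne_zero
  constructor
  · rintro h d ⟨hd, h1, h2⟩
    obtain ⟨e, rfl⟩ := hd
    have hd0 : 0 < d := Nat.pos_of_ne_zero (left_ne_zero_of_mul hn0)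
    have he0 : e ≠ 0 := right_ne_zero_of_mul hn0
    rw [Nat.mul_div_cancel_left _ hd0] at h2
    have hco : Nat.Coprime d e := (Nat.squarefree_mul_iff.1 hs).1
    have k1 : ∀ p ∈ e.primeFactors, jacobiSym d p = 1 := by
      intro p hp
      have hpp := Nat.prime_of_mem_primeFactors hp
      have hpe := Nat.dvd_of_mem_primeFactors hp
      refine h1 p hpp (Dvd.dvd.mul_left hpe d) fun hpd => ?_
      exact hpp.one_lt.ne' (Nat.dvd_one.1 (hco ▸ Nat.dvd_gcd hpd hpe))
    have k2 : ∀ p ∈ d.primeFactors, jacobiSym e p = 1 := by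
      intro p hp
      exact h2 p (Nat.prime_of_mem_primeFactors hp) (Nat.dvd_of_mem_primeFactors hp)
    rcases h d e rfl k1 k2 with h3 | h3
    · exact Or.inl h3
    · right
      rw [h3, mul_one]
  · intro h b c hbc h1 h2
    have hbc0 : b * c ≠ 0 := by rw [hbc]; exact hn0
    have hb0 : 0 < b := Nat.pos_of_ne_zero (left_ne_zero_of_mul hbc0)
    have hc0 : c ≠ 0 := right_ne_zero_of_mul hbc0
    have hR : Redei n b := by
      refine ⟨⟨c, hbc.symm⟩, fun p hp hpn hpb => ?_, fun p hp hpb => ?_⟩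
      · refine h1 p (Nat.mem_primeFactors.2 ⟨hp, ?_, hc0⟩)
        rw [← hbc] at hpn
        exact ((hp.dvd_mul).1 hpn).resolve_left hpb
      · rw [← hbc, Nat.mul_div_cancel_left _ hb0]
        exact h2 p (Nat.mem_primeFactors.2 ⟨hp, hpb, hb0.ne'⟩)
    rcases h b hR with h3 | h3
    · exact Or.inl h3
    · right
      rw [h3] at hbc
      exact Nat.eq_of_mul_eq_mul_left (Nat.pos_of_ne_zero hn0) (by rw [hbc, mul_one])

theorem t_RD : S_RD := by
  intro n hs h4
  rw [← qc_iff hs]
  unfold Pool.Agent.H114.X21.Gm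
  have e1 : (-(n : ℤ)) % 4 = 1 := by omega
  have e2 : (-(n : ℤ)).natAbs = n := by simp
  rw [e2]
  constructor
  · intro h
    exact ⟨fun _ => h, fun h' => absurd e1 h'⟩
  · intro h
    exact h.1 e1

end Pool.Agent.H628.JZ.RD
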