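import Pool.Agent.H743.JL.StmZ
import Pool.Agent.H743.JL.TT

/-! Project JZ (helper743), task TF (helper628): the joint law for predicates which differ at one integer. -/

set_option autoImplicit false
set_option linter.all false

open scoped Classical

namespace Pool.Agent.H628.JZ.TF

open Finset Filter Topology
open Pool.Agent.H743.JL
open Pool.Agent.H743.X17 (Sys Rt)
open Pool.Agent.N919.BS (NS)

theorem closeE {P Q : ℤ → Prop} (E : Finset ℤ) (h : ∀ d, Squarefree d → d ∉ E → P d → Q d) (X : ℕ) :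
    NS P X ≤ NS Q X + E.card := by
  unfold NS
  have h1 : ((Icc (-(X : ℤ)) X).filter fun d => Squarefree d ∧ P d) ⊆
      ((Icc (-(X : ℤ)) X).filter fun d => Squarefree d ∧ Q d) ∪ E := by
    intro d hd
    obtain ⟨h2, h3, h4⟩ := mem_filter.1 hd
    by_cases hE : d ∈ E
    · exact mem_union_right _ hE
    · exact mem_union_left _ (mem_filter.2 ⟨h2, h3, h d h3 hE h4⟩)
  exact (card_le_card h1).trans (card_union_le _ _)

theorem limE {P Q : ℤ → Prop} (E : Finset ℤ) (h : ∀ d, Squarefree d → d ∉ E → (P d ↔ Q d)) {T : ℕ → ℕ}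
    {c : ℝ} (hT : Tendsto (fun X => (T X : ℝ)) atTop atTop)
    (hQ : Tendsto (fun X => (NS Q X : ℝ) / (T X : ℝ)) atTop (𝓝 c)) :
    Tendsto (fun X => (NS P X : ℝ) / (T X : ℝ)) atTop (𝓝 c) := by
  have h1 : Tendsto (fun X => (NS P X : ℝ) / (T X : ℝ) - (NS Q X : ℝ) / (T X : ℝ)) atTop (𝓝 0) := by
    have h2 : Tendsto (fun X => (E.card : ℝ) / (T X : ℝ)) atTop (𝓝 0) := tendsto_const_nhds.div_atTop hT
    refine squeeze_zero_norm (fun X => ?_) h2
    rw [← sub_div, Real.norm_eq_abs, abs_div, abs_of_nonneg (show (0 : ℝ) ≤ (T X : ℝ) by positivity)]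
    have h3 : (NS P X : ℝ) ≤ NS Q X + E.card := by
      exact_mod_cast closeE E (fun d hd hE => (h d hd hE).1) X
    have h4 : (NS Q X : ℝ) ≤ NS P X + E.card := by
      exact_mod_cast closeE E (fun d hd hE => (h d hd hE).2) X
    have h5 : |(NS P X : ℝ) - NS Q X| ≤ E.card := abs_le.2 ⟨by linarith, by linarith⟩
    gcongr
  have h6 := h1.add hQ
  rw [zero_add] at h6
  refine h6.congr (fun X => ?_)
  ring

theorem top_of_low {T : ℕ → ℕ} {c : ℝ} {X₀ : ℕ} (hc : 0 < c) (h : ∀ X : ℕ, X₀ ≤ X → c * X ≤ (T X : ℝ)) :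
    Tendsto (fun X => (T X : ℝ)) atTop atTop := by
  have h2 : Tendsto (fun X : ℕ => c * (X : ℝ)) atTop atTop :=
    Tendsto.const_mul_atTop hc tendsto_natCast_atTop_atTop
  refine tendsto_atTop_mono' _ ?_ h2
  filter_upwards [eventually_ge_atTop X₀] with X hX
  exact h X hX

theorem tw_one {t d : ℤ} (ht : Squarefree t) (hd : Squarefree d) (h : tw t d = 1) : d = t := by
  obtain ⟨_, h2, h3, _, _, h6⟩ := Pool.Agent.H955.JL.TT.t_TT
  refine h6 d t t hd ht ht ?_
  rw [h2 d t, h, h3 t ht]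

theorem t_TF (h : S_FI2) : S_TF := by
  intro P G hP hG T T' inf S d₀ hT hT' hS hd₀ A hA A' hA'
  obtain ⟨⟨c, X₀, hc, hlow⟩, hlim⟩ := h T T' inf S d₀ hT hT' hS hd₀
  have htop := top_of_low hc hlow
  refine limE (T ∪ T'.image (fun t => -t)) (fun d hd hE => ?_) htop (hlim A hA A' hA')
  rw [mem_union, not_or] at hE
  have h1 : ∀ t ∈ T, (P (tw t d) ↔ Sys (tw t d)) := by
    intro t ht
    apply hP _ (Pool.Agent.H955.JL.TT.sqf_tw (hT t ht) hd)
    intro h1
    apply hE.1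
    rw [tw_one (hT t ht) hd h1]
    exact ht
  have h2 : Qc2 T T' inf S d₀ d → ∀ t ∈ T', (G (tw t d) ↔ H4 (tw t d)) := by
    intro hq t ht
    apply hG _ ((hq.1.2 t ht).2 (hT' t ht).2) (Pool.Agent.H955.JL.TT.sqf_tw (hT' t ht).1 hd)
    intro h3
    apply hE.2
    rw [mem_image]
    have hn : Squarefree (-t) := fun x hx => (hT' t ht).1 x ((dvd_neg).1 hx)
    have h4 : tw (-t) d = 1 := by
      rw [Pool.Agent.H955.JL.TT.t_TT.2.2.2.2.1 t d (hT' t ht).1 hd, h3]
      norm_num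
    exact ⟨t, ht, (tw_one hn hd h4).symm⟩
  constructor
  · rintro ⟨hq, h3, h4⟩
    exact ⟨hq, fun t ht => (h1 t ht).symm.trans (h3 t ht), fun t ht => (h2 hq t ht).symm.trans (h4 t ht)⟩
  · rintro ⟨hq, h3, h4⟩
    exact ⟨hq, fun t ht => (h1 t ht).trans (h3 t ht), fun t ht => (h2 hq t ht).trans (h4 t ht)⟩

end Pool.Agent.H628.JZ.TF
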